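import Mathlib

set_option autoImplicit false

/-! Project MX, module BAS: a base of size at most `log₂ |H|`. -/

namespace Pool.Agent.D0H85.MX

lemma base_of_fix {H X : Type} [Group H] [MulAction H X] [Finite H] [FaithfulSMul H X] (n : ℕ) :
    ∀ B : Finset X, Nat.card (fixingSubgroup H (B : Set X)) ≤ n →
      2 ^ B.card * Nat.card (fixingSubgroup H (B : Set X)) ≤ Nat.card H →
      ∃ C : Finset X, B ⊆ C ∧ (∀ h : H, (∀ x ∈ C, h • x = x) → h = 1) ∧ 2 ^ C.card ≤ Nat.card H := by
  classical
  induction n using Nat.strong_induction_on with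
  | _ n ih =>
    intro B hn hB
    by_cases h1 : ∀ h : H, (∀ x ∈ B, h • x = x) → h = 1
    · refine ⟨B, Finset.Subset.refl _, h1, le_trans ?_ hB⟩
      have : 0 < Nat.card (fixingSubgroup H (B : Set X)) := Nat.card_pos
      exact Nat.le_mul_of_pos_right _ this
    · push Not at h1
      obtain ⟨g, hg, hg1⟩ := h1
      obtain ⟨y, hy⟩ : ∃ y : X, g • y ≠ y := by
        by_contra hc
        push Not at hc
        exact hg1 (FaithfulSMul.eq_of_smul_eq_smul (α := X) fun x => by rw [hc x, one_smul])
      have hyB : y ∉ B := fun h => hy (hg y h)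
      set F := fixingSubgroup H (B : Set X) with hF
      set F' := fixingSubgroup H ((insert y B : Finset X) : Set X) with hF'
      have hle : F' ≤ F := by
        intro h hh
        rw [hF', mem_fixingSubgroup_iff] at hh
        rw [hF, mem_fixingSubgroup_iff]
        intro x hx
        exact hh x (by rw [Finset.coe_insert]; exact Set.mem_insert_of_mem _ hx)
      have hgF : g ∈ F := by
        rw [hF, mem_fixingSubgroup_iff]
        intro x hx
        exact hg x (Finset.mem_coe.1 hx)
      have hgF' : g ∉ F' := by
        rw [hF', mem_fixingSubgroup_iff]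
        intro hc
        exact hy (hc y (by rw [Finset.coe_insert]; exact Set.mem_insert _ _))
      have hidx : 2 * Nat.card F' ≤ Nat.card F := by
        have h2 : Nat.card F' ∣ Nat.card F := Subgroup.card_dvd_of_le hle
        have h3 : Nat.card F' ≠ Nat.card F := by
          intro hc
          have : F' = F := by
            apply SetLike.coe_injective
            exact Set.eq_of_subset_of_ncard_le hle (by
              rw [← Nat.card_coe_set_eq, ← Nat.card_coe_set_eq]
              exact hc.ge) (Set.toFinite _)
          exact hgF' (this ▸ hgF)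
        obtain ⟨c, hc⟩ := h2
        have h4 : 0 < Nat.card F := Nat.card_pos
        rcases c with _ | _ | c
        · omega
        · omega
        · rw [hc]; nlinarith
      have hpos : 0 < Nat.card F' := Nat.card_pos
      obtain ⟨C, hC1, hC2, hC3⟩ := ih (Nat.card F') (by omega) (insert y B) le_rfl (by
        rw [Finset.card_insert_of_notMem hyB, pow_succ]
        calc 2 ^ B.card * 2 * Nat.card F' = 2 ^ B.card * (2 * Nat.card F') := by ring
          _ ≤ 2 ^ B.card * Nat.card F := Nat.mul_le_mul_left _ hidx
          _ ≤ _ := hB)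
      exact ⟨C, (Finset.subset_insert _ _).trans hC1, hC2, hC3⟩

theorem bas_core (H X : Type) [Group H] [MulAction H X] [Finite H] [Finite X] [Nontrivial H]
    [FaithfulSMul H X] : ∃ B : Finset X, B.Nonempty ∧
      (∀ h : H, (∀ x ∈ B, h • x = x) → h = 1) ∧ 2 ^ B.card ≤ Nat.card H := by
  obtain ⟨C, -, h2, h3⟩ := base_of_fix (H := H) (X := X) _ ∅ le_rfl (by
    rw [Finset.card_empty, pow_zero, one_mul]
    exact Subgroup.card_le_card_group _)
  refine ⟨C, ?_, h2, h3⟩
  rw [Finset.nonempty_iff_ne_empty]
  rintro rfl
  obtain ⟨g, hg⟩ := exists_ne (1 : H)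
  exact hg (h2 g (by simp))

end Pool.Agent.D0H85.MX
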