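import Pool.Agent.D0H64.MX.Stm
import Pool.Agent.D0H85.MX.BasCore

set_option autoImplicit false

/-! Project MX, module BAS. -/

namespace Pool.Agent.D0H85.MX

open Pool.Agent.D0H64.MX

theorem t_BAS : S_BAS := by
  intro H X _ _ _ _ _ _
  exact bas_core H X

end Pool.Agent.D0H85.MX
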