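import Pool.Agent.D0H85.MX.GenB

set_option autoImplicit false

/-! Project MX, module GEN, from a 3-cycle to the alternating group. -/

namespace Pool.Agent.D0H85.MX

open Equiv Equiv.Perm

/-- a group which contains a product of two swaps with one common point is full on three points -/
lemma full_of_link {α : Type} [DecidableEq α] {T : Subgroup (Perm α)} {a b c : α}
    (h1 : a ≠ c) (h3 : b ≠ c) (h2 : a ≠ b) (hlink : swap a c * swap b c ∈ T) :
    ∃ A : Finset α, 3 ≤ A.card ∧ Full T (A : Set α) := by
  have hpair : ∀ u v : α, Full T ({u, v} : Set α) := by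
    intro u v x hx y hy z hz w hw h4 h5
    have h6 : swap x y = swap u v := by
      rcases hx with rfl | hx
      · rcases hy with rfl | hy
        · exact absurd rfl h4
        · rw [Set.mem_singleton_iff.1 hy]
      · rw [Set.mem_singleton_iff.1 hx]
        rcases hy with rfl | hy
        · rw [swap_comm]
        · rw [Set.mem_singleton_iff.1 hx, Set.mem_singleton_iff.1 hy] at h4
          exact absurd rfl h4
    have h7 : swap z w = swap u v := by
      rcases hz with rfl | hz
      · rcases hw with rfl | hw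
        · exact absurd rfl h5
        · rw [Set.mem_singleton_iff.1 hw]
      · rw [Set.mem_singleton_iff.1 hz]
        rcases hw with rfl | hw
        · rw [swap_comm]
        · rw [Set.mem_singleton_iff.1 hz, Set.mem_singleton_iff.1 hw] at h5
          exact absurd rfl h5
    rw [h6, h7, Equiv.swap_mul_self]
    exact T.one_mem
  refine ⟨{a, c, b}, ?_, ?_⟩
  · rw [Finset.card_insert_of_notMem, Finset.card_insert_of_notMem, Finset.card_singleton]
    · rw [Finset.mem_singleton]
      exact Ne.symm h3
    · rw [Finset.mem_insert, Finset.mem_singleton, not_or]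
      exact ⟨h1, h2⟩
  · have h8 := full_union (hpair a c) (hpair c b) (a := a) (b := b) (c := c)
      (Set.mem_insert _ _) (Set.mem_insert_of_mem _ (Set.mem_singleton _))
      (Set.mem_insert_of_mem _ (Set.mem_singleton _)) (Set.mem_insert _ _) h1 h3 hlink
    intro x hx y hy z hz w hw
    have hm : ∀ x : α, x ∈ (({a, c, b} : Finset α) : Set α) →
        x ∈ ({a, c} : Set α) ∪ ({c, b} : Set α) := by
      intro x hx
      rw [Finset.mem_coe, Finset.mem_insert, Finset.mem_insert, Finset.mem_singleton] at hx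
      rcases hx with rfl | rfl | rfl
      · exact Or.inl (Set.mem_insert _ _)
      · exact Or.inr (Set.mem_insert _ _)
      · exact Or.inr (Set.mem_insert_of_mem _ (Set.mem_singleton _))
    exact h8 x (hm x hx) y (hm y hy) z (hm z hz) w (hm w hw)

/-- a group which contains a 3-cycle is full on its support -/
lemma full_of_three {α : Type} [DecidableEq α] [Fintype α] {T : Subgroup (Perm α)} {c : Perm α}
    (hc : c.IsThreeCycle) (hcT : c ∈ T) : ∃ A : Finset α, 3 ≤ A.card ∧ Full T (A : Set α) := by
  obtain ⟨a, ha⟩ : c.support.Nonempty := by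
    rw [← Finset.card_pos, hc.card_support]
    norm_num
  have hnd := hc.nodup_iff_mem_support.mpr ha
  have he := hc.eq_swap_mul_swap_iff_mem_support.mpr ha
  have h1 : a ≠ c a := by
    intro h
    apply List.nodup_cons.1 hnd |>.1
    rw [← h]
    exact List.mem_cons_self
  have h2 : a ≠ c (c a) := by
    intro h
    apply List.nodup_cons.1 hnd |>.1
    rw [← h]
    exact List.mem_cons_of_mem _ (List.mem_cons_self)
  have h3 : c a ≠ c (c a) := fun h => h1 (c.injective h)
  refine full_of_link (a := a) (b := c (c a)) (c := c a) h1 (Ne.symm h3) h2 ?_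
  rw [swap_comm (c (c a)) (c a), ← he]
  exact hcT

/-- the final count -/
theorem gen_of_three (m : ℕ) (hm : 11 ≤ m) (g : Perm (Fin m)) (hg : g ≠ 1)
    (h3 : ∃ l : List (Perm (Fin m)), l.length ≤ 4 ∧ (∀ h ∈ l, IsConj g h) ∧
      ∃ A : Finset (Fin m), 3 ≤ A.card ∧ Full (Subgroup.closure {h | h ∈ l}) (A : Set (Fin m))) :
    ∃ l : List (Perm (Fin m)),
      l.length * Nat.card {x : Fin m // g • x ≠ x} ≤ 48 * m * Nat.log 2 m ∧
      (∀ h ∈ l, IsConj g h) ∧ alternatingGroup (Fin m) ≤ Subgroup.closure {h | h ∈ l} := by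
  classical
  obtain ⟨R, hR, hs⟩ := exists_R g
  have hcs : Nat.card {x : Fin m // g • x ≠ x} = (Finset.univ.filter (fun x => g x ≠ x)).card := by
    rw [Nat.card_eq_fintype_card, Fintype.card_subtype]
    rfl
  rw [hcs]
  set s := (Finset.univ.filter (fun x => g x ≠ x)).card with hsdef
  have hs1 : 1 ≤ s := by
    rw [hsdef, Nat.one_le_iff_ne_zero, ← Nat.pos_iff_ne_zero, Finset.card_pos]
    by_contra hcon
    rw [Finset.not_nonempty_iff_eq_empty] at hcon
    apply hg
    ext x
    have h4 : x ∉ Finset.univ.filter (fun x => g x ≠ x) := by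
      rw [hcon]
      exact Finset.notMem_empty x
    rw [Finset.mem_filter, not_and, not_not] at h4
    rw [h4 (Finset.mem_univ x)]
    rfl
  have hsm : s ≤ m := by
    have h4 := Finset.card_le_univ (Finset.univ.filter (fun x => g x ≠ x))
    rw [Fintype.card_fin] at h4
    exact h4
  have hcard : Fintype.card (Fin m) = m := Fintype.card_fin m
  obtain ⟨r, hr⟩ : ∃ r, r = (s + 5) / 6 := ⟨_, rfl⟩
  have hr1 : 1 ≤ r := by omega
  have hr2 : s ≤ 6 * r := by omega
  have hr3 : r ≤ R.card := by omega
  have hr4 : 2 * r < m := by omega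
  have hr5 : r + 2 ≤ m := by omega
  have h0 : Reach g 0 3 := by
    obtain ⟨l, hl, hc, A, hA, hF⟩ := h3
    exact ⟨l, by omega, hc, A, hA, hA, hF⟩
  have h1 := reach_one hR hr3 (by rw [hcard]; exact hr4) (by rw [hcard]; exact hr5) h0 (Nat.log 2 m + 1)
  have hpow : m < 2 ^ (Nat.log 2 m + 1) := Nat.lt_pow_succ_log_self (by norm_num) m
  rw [min_eq_right (by omega)] at h1
  have h2 := reach_two hR hr3 (by rw [hcard]; exact hr4) (by rw [hcard]; exact hr5) h1 (m / r + 1)
  rw [hcard] at h2
  have hdiv : m < (m / r + 1) * r := by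
    have := Nat.lt_div_mul_add hr1 (a := m)
    rw [Nat.add_mul, Nat.one_mul]
    exact this
  rw [min_eq_left (by omega)] at h2
  obtain ⟨l, hl, hc, A, hA, hA3, hF⟩ := h2
  have hAuniv : A = Finset.univ := by
    rw [← Finset.card_eq_iff_eq_univ]
    have := Finset.card_le_univ A
    omega
  refine ⟨l, ?_, hc, ?_⟩
  · have hlog : 3 ≤ Nat.log 2 m := by
      have h5 : Nat.log 2 8 ≤ Nat.log 2 m := Nat.log_mono_right (by omega)
      have h6 : Nat.log 2 8 = 3 := by
        rw [show (8 : ℕ) = 2 ^ 3 by norm_num]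
        exact Nat.log_pow (by norm_num) 3
      omega
    have hmr : m / r * r ≤ m := Nat.div_mul_le_self m r
    have hL : l.length * s ≤ (Nat.log 2 m + 1 + (m / r + 1) + 4) * (6 * r) :=
      Nat.mul_le_mul hl hr2
    refine hL.trans ?_
    have hrm : r ≤ m := by omega
    have e1 : (Nat.log 2 m + 1 + (m / r + 1) + 4) * (6 * r) =
        6 * (r * Nat.log 2 m) + 36 * r + 6 * (m / r * r) := by ring
    have e2 : 48 * m * Nat.log 2 m = 48 * (m * Nat.log 2 m) := by ring
    rw [e1, e2]
    have e3 : r * Nat.log 2 m ≤ m * Nat.log 2 m := Nat.mul_le_mul_right _ hrm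
    have e4 : m * 3 ≤ m * Nat.log 2 m := Nat.mul_le_mul_left _ hlog
    omega
  · rw [hAuniv, Finset.coe_univ] at hF
    exact alt_le hF (⟨0, by omega⟩ : Fin m) ⟨1, by omega⟩ (by
      intro h
      have := congrArg Fin.val h
      simp at this)

end Pool.Agent.D0H85.MX
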