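import Pool.Agent.D0H64.MX.Stm3
import Pool.Agent.D0H77.MX.Three
import Pool.Agent.D0H85.MX.GenC

set_option autoImplicit false

/-! Project MX (helper64), module GEN: few conjugates of a permutation generate the alternating group. -/

namespace Pool.Agent.D0H85.MX

open Equiv Equiv.Perm

theorem t_GEN : Pool.Agent.D0H64.MX.S_GEN := by
  refine ⟨48, ?_⟩
  intro m hm g hg
  obtain ⟨l, hl, hc, p, u, v, hu, hv, huv, hT⟩ := Pool.Agent.D0H77.MX.three_swaps m hm g hg
  have hlink : swap u p * swap v p ∈ Subgroup.closure {h | h ∈ l} := by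
    rw [swap_comm u p, swap_comm v p]
    exact hT
  obtain ⟨A, hA, hF⟩ := full_of_link hu hv huv hlink
  exact gen_of_three m hm g hg ⟨l, hl.le, hc, A, hA, hF⟩

end Pool.Agent.D0H85.MX
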