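import Mathlib

set_option autoImplicit false

/-! Project MX, module GEN, group theory part. -/

namespace Pool.Agent.D0H85.MX

open Equiv Equiv.Perm

variable {α : Type} [DecidableEq α]

/-- all products of two transpositions in `A` are in `T` -/
def Full (T : Subgroup (Perm α)) (A : Set α) : Prop :=
  ∀ x ∈ A, ∀ y ∈ A, ∀ z ∈ A, ∀ w ∈ A, x ≠ y → z ≠ w → swap x y * swap z w ∈ T

lemma Full.mono {T T' : Subgroup (Perm α)} (h : T ≤ T') {A : Set α} (hA : Full T A) : Full T' A :=
  fun x hx y hy z hz w hw h1 h2 => h (hA x hx y hy z hz w hw h1 h2)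

lemma full_image {T : Subgroup (Perm α)} {A : Set α} (hA : Full T A) {y : Perm α} (hy : y ∈ T) :
    Full T (y '' A) := by
  rintro _ ⟨a, ha, rfl⟩ _ ⟨b, hb, rfl⟩ _ ⟨c, hc, rfl⟩ _ ⟨d, hd, rfl⟩ h1 h2
  have h3 := hA a ha b hb c hc d hd (fun h => h1 (by rw [h])) (fun h => h2 (by rw [h]))
  have e : swap (y a) (y b) * swap (y c) (y d) = y * (swap a b * swap c d) * y⁻¹ := by
    rw [Equiv.swap_apply_apply, Equiv.swap_apply_apply]
    group
  rw [e]
  exact T.mul_mem (T.mul_mem hy h3) (T.inv_mem hy)

/-- the swap identity -/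
lemma swap3 {a b c : α} (_hac : a ≠ c) (hbc : b ≠ c) (hab : a ≠ b) :
    swap a b = swap a c * swap b c * swap a c := by
  have h := Equiv.swap_apply_apply (swap a c) c b
  rw [Equiv.swap_apply_right, Equiv.swap_apply_of_ne_of_ne hab.symm hbc, Equiv.swap_inv, swap_comm c b] at h
  exact h

/-- union of two sets with a link -/
lemma full_union {T : Subgroup (Perm α)} {A B : Set α} (hA : Full T A) (hB : Full T B) {a b c : α}
    (haA : a ∈ A) (hcA : c ∈ A) (hbB : b ∈ B) (hcB : c ∈ B) (hac : a ≠ c) (hbc : b ≠ c)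
    (hlink : swap a c * swap b c ∈ T) : Full T (A ∪ B) := by
  -- all swaps are in the left coset of `swap a c`
  have key : ∀ x ∈ A ∪ B, ∀ y ∈ A ∪ B, x ≠ y → swap a c * swap x y ∈ T := by
    have hAA : ∀ x ∈ A, ∀ y ∈ A, x ≠ y → swap a c * swap x y ∈ T := fun x hx y hy h =>
      hA a haA c hcA x hx y hy hac h
    have hBB : ∀ x ∈ B, ∀ y ∈ B, x ≠ y → swap a c * swap x y ∈ T := by
      intro x hx y hy h
      have h1 := hB b hbB c hcB x hx y hy hbc h
      have e : swap a c * swap x y = (swap a c * swap b c) * (swap b c * swap x y) := by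
        rw [mul_assoc, ← mul_assoc (swap b c), Equiv.swap_mul_self, one_mul]
      rw [e]
      exact T.mul_mem hlink h1
    have hAB : ∀ x ∈ A, ∀ y ∈ B, x ≠ y → swap a c * swap x y ∈ T := by
      intro x hx y hy h
      by_cases hxc : x = c
      · subst hxc
        exact hBB x hcB y hy h
      by_cases hyc : y = c
      · subst hyc
        exact hAA x hx y hcA h
      have h1 := hAA x hx c hcA hxc
      have h2 := hBB y hy c hcB hyc
      rw [swap3 hxc hyc h]
      have e : swap a c * (swap x c * swap y c * swap x c) =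
          (swap a c * swap x c) * ((swap a c * swap y c)⁻¹ * (swap a c * swap x c)) := by
        rw [mul_inv_rev, Equiv.swap_inv, Equiv.swap_inv]
        simp only [mul_assoc]
        rw [← mul_assoc (swap a c) (swap a c) (swap x c), Equiv.swap_mul_self, one_mul]
      rw [e]
      exact T.mul_mem h1 (T.mul_mem (T.inv_mem h2) h1)
    rintro x (hx | hx) y (hy | hy) h
    · exact hAA x hx y hy h
    · exact hAB x hx y hy h
    · rw [swap_comm x y]
      exact hAB y hy x hx (Ne.symm h)
    · exact hBB x hx y hy h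
  intro x hx y hy z hz w hw h1 h2
  have e : swap x y * swap z w = (swap a c * swap x y)⁻¹ * (swap a c * swap z w) := by
    rw [mul_inv_rev, Equiv.swap_inv, Equiv.swap_inv, mul_assoc, ← mul_assoc (swap a c) (swap a c),
      Equiv.swap_mul_self, one_mul]
  rw [e]
  exact T.mul_mem (T.inv_mem (key x hx y hy h1)) (key z hz w hw h2)

/-- union of two sets with at least three elements and a common point -/
lemma full_union3 {T : Subgroup (Perm α)} {A B : Set α} (hA : Full T A) (hB : Full T B) {c a a' b b' : α}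
    (hcA : c ∈ A) (hcB : c ∈ B) (ha : a ∈ A) (ha' : a' ∈ A) (hb : b ∈ B) (hb' : b' ∈ B)
    (hac : a ≠ c) (ha'c : a' ≠ c) (haa : a ≠ a') (hbc : b ≠ c) (hb'c : b' ≠ c) (hbb : b ≠ b') :
    Full T (A ∪ B) := by
  by_cases h1 : a ∈ B
  · -- `a` and `c` are both in `B`
    refine full_union hA hB ha hcA h1 hcB hac hac ?_
    rw [Equiv.swap_mul_self]
    exact T.one_mem
  by_cases h2 : a' ∈ B
  · refine full_union hA hB ha' hcA h2 hcB ha'c ha'c ?_
    rw [Equiv.swap_mul_self]
    exact T.one_mem
  -- now `t = (c a a')` fixes `b`, `b'`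
  have hba : b ≠ a := fun h => h1 (h ▸ hb)
  have hba' : b ≠ a' := fun h => h2 (h ▸ hb)
  have hb'a : b' ≠ a := fun h => h1 (h ▸ hb')
  have hb'a' : b' ≠ a' := fun h => h2 (h ▸ hb')
  set t : Perm α := swap a a' * swap a' c with ht
  have htT : t ∈ T := hA a ha a' ha' a' ha' c hcA haa ha'c
  have htc : t c = a := by
    rw [ht, Perm.mul_apply, Equiv.swap_apply_right, Equiv.swap_apply_right]
  have htb : t b = b := by
    rw [ht, Perm.mul_apply, Equiv.swap_apply_of_ne_of_ne hba' hbc, Equiv.swap_apply_of_ne_of_ne hba hba']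
  have htb' : t b' = b' := by
    rw [ht, Perm.mul_apply, Equiv.swap_apply_of_ne_of_ne hb'a' hb'c,
      Equiv.swap_apply_of_ne_of_ne hb'a hb'a']
  have hu : swap b c * swap b b' ∈ T := hB b hb c hcB b hb b' hb' hbc hbb
  have hv : swap b a * swap b b' ∈ T := by
    have e : swap b a * swap b b' = t * (swap b c * swap b b') * t⁻¹ := by
      have e1 := Equiv.swap_apply_apply t b c
      have e2 := Equiv.swap_apply_apply t b b'
      rw [htb, htc] at e1
      rw [htb, htb'] at e2
      have e3 : t * (swap b c * swap b b') * t⁻¹ = (t * swap b c * t⁻¹) * (t * swap b b' * t⁻¹) := by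
        group
      rw [e3, ← e1, ← e2]
    rw [e]
    exact T.mul_mem (T.mul_mem htT hu) (T.inv_mem htT)
  have hw : swap b c * swap b a ∈ T := by
    have e : swap b c * swap b a = (swap b c * swap b b') * (swap b a * swap b b')⁻¹ := by
      rw [mul_inv_rev, Equiv.swap_inv, Equiv.swap_inv, mul_assoc, ← mul_assoc (swap b b') (swap b b'),
        Equiv.swap_mul_self, one_mul]
    rw [e]
    exact T.mul_mem hu (T.inv_mem hv)
  refine full_union hA hB ha hcA hb hcB hac hbc ?_
  have e : swap a c * swap b c = swap b c * swap b a := by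
    have e1 := Equiv.swap_apply_apply (swap b c) c a
    rw [Equiv.swap_apply_right, Equiv.swap_apply_of_ne_of_ne hba.symm hac, Equiv.swap_inv] at e1
    rw [e1, swap_comm c a, mul_assoc, ← mul_assoc (swap b c) (swap b c), Equiv.swap_mul_self, one_mul]
  rw [e]
  exact hw

/-- everything -/
lemma alt_le [Fintype α] {T : Subgroup (Perm α)} (hT : Full T Set.univ) (x0 y0 : α) (h0 : x0 ≠ y0) :
    alternatingGroup α ≤ T := by
  have key : ∀ σ : Perm α, (sign σ = 1 → σ ∈ T) ∧ (sign σ = -1 → swap x0 y0 * σ ∈ T) := by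
    intro σ
    induction σ using Equiv.Perm.swap_induction_on with
    | one => exact ⟨fun _ => T.one_mem, fun h => by rw [Equiv.Perm.sign_one] at h; exact absurd h (by decide)⟩
    | swap_mul f x y hxy ih =>
      constructor
      · intro h
        rw [Equiv.Perm.sign_mul, Equiv.Perm.sign_swap hxy] at h
        have h1 : sign f = -1 := by
          have h2 := congrArg (fun u => -1 * u) h
          simp only [mul_one] at h2
          rw [← mul_assoc] at h2
          simpa using h2
        have h3 := ih.2 h1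
        have e : swap x y * f = (swap x y * swap x0 y0) * (swap x0 y0 * f) := by
          rw [mul_assoc, ← mul_assoc (swap x0 y0), Equiv.swap_mul_self, one_mul]
        rw [e]
        exact T.mul_mem (hT x trivial y trivial x0 trivial y0 trivial hxy h0) h3
      · intro h
        rw [Equiv.Perm.sign_mul, Equiv.Perm.sign_swap hxy] at h
        have h1 : sign f = 1 := by simpa using h
        have h3 := ih.1 h1
        rw [← mul_assoc]
        exact T.mul_mem (hT x0 trivial y0 trivial x trivial y trivial h0 hxy) h3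
  intro σ hσ
  exact (key σ).1 (Equiv.Perm.mem_alternatingGroup.1 hσ)

end Pool.Agent.D0H85.MX
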