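import Pool.Agent.D0H85.MX.GenA

set_option autoImplicit false

/-! Project MX, module GEN, combinatorial part. -/

namespace Pool.Agent.D0H85.MX

open Equiv Equiv.Perm

variable {α : Type} [DecidableEq α] [Fintype α]

omit [DecidableEq α] [Fintype α] in
lemma inv_self85 (τ : Perm α) (z : α) : τ⁻¹ (τ z) = z := τ.symm_apply_apply z

/-- a set `R` disjoint from its image with at least a third of the moved points -/
lemma exists_R (g : Perm α) : ∃ R : Finset α, (∀ x ∈ R, g x ∉ R) ∧
    (Finset.univ.filter (fun x => g x ≠ x)).card ≤ 3 * R.card := by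
  classical
  obtain ⟨R, hR, hmax⟩ := Finset.exists_max_image
    (Finset.univ.filter (fun R : Finset α => ∀ x ∈ R, g x ∉ R)) Finset.card
    ⟨∅, by simp⟩
  rw [Finset.mem_filter] at hR
  refine ⟨R, hR.2, ?_⟩
  have hsub : Finset.univ.filter (fun x => g x ≠ x) ⊆ (R ∪ R.image g) ∪ R.image g.symm := by
    intro x hx
    rw [Finset.mem_filter] at hx
    by_contra hcon
    rw [Finset.mem_union, Finset.mem_union, not_or, not_or] at hcon
    obtain ⟨⟨h1, h2⟩, h3⟩ := hcon
    have hmem : insert x R ∈ Finset.univ.filter (fun R : Finset α => ∀ x ∈ R, g x ∉ R) := by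
      rw [Finset.mem_filter]
      refine ⟨Finset.mem_univ _, ?_⟩
      intro y hy
      rw [Finset.mem_insert] at hy
      rw [Finset.mem_insert, not_or]
      rcases hy with rfl | hy
      · exact ⟨hx.2, fun h => h3 (Finset.mem_image.2 ⟨g y, h, by simp⟩)⟩
      · exact ⟨fun h => h2 (Finset.mem_image.2 ⟨y, hy, h⟩), hR.2 y hy⟩
    have h4 := hmax _ hmem
    rw [Finset.card_insert_of_notMem h1] at h4
    omega
  have h5 := Finset.card_le_card hsub
  have h6 := Finset.card_union_le (R ∪ R.image g) (R.image g.symm)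
  have h7 := Finset.card_union_le R (R.image g)
  have h8 : (R.image g).card ≤ R.card := Finset.card_image_le
  have h9 : (R.image g.symm).card ≤ R.card := Finset.card_image_le
  omega

/-- the step -/
lemma step (g : Perm α) {R : Finset α} (hR : ∀ x ∈ R, g x ∉ R) {q : ℕ} (hq : q ≤ R.card)
    (h2 : 2 * q < Fintype.card α) {A : Finset α} (hA : q + 2 ≤ A.card) (hA2 : A.card + q ≤ Fintype.card α) :
    ∃ y : Perm α, IsConj g y ∧ A.card + q ≤ (A ∪ A.image y).card ∧ ∃ c ∈ A, c ∈ A.image y := by
  classical
  obtain ⟨R', hR', hc⟩ := Finset.exists_subset_card_eq hq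
  have himg : (R'.image g).card = q := by
    rw [Finset.card_image_of_injective _ g.injective, hc]
  obtain ⟨p, hp⟩ : ∃ p : α, p ∉ R' ∪ R'.image g := by
    by_contra hcon
    push Not at hcon
    have h3 : Fintype.card α ≤ (R' ∪ R'.image g).card := by
      rw [← Finset.card_univ]
      exact Finset.card_le_card (fun x _ => hcon x)
    have h4 := Finset.card_union_le R' (R'.image g)
    omega
  rw [Finset.mem_union, not_or] at hp
  have hst : insert p (insert (g p) R') ⊆ (R'.image g)ᶜ := by
    intro x hx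
    rw [Finset.mem_compl]
    rw [Finset.mem_insert, Finset.mem_insert] at hx
    rcases hx with rfl | rfl | hx
    · exact hp.2
    · intro h
      obtain ⟨z, hz, hz2⟩ := Finset.mem_image.1 h
      exact hp.1 (g.injective hz2 ▸ hz)
    · intro h
      obtain ⟨z, hz, hz2⟩ := Finset.mem_image.1 h
      exact hR z (hR' hz) (hz2 ▸ hR' hx)
  have hcs : (insert p (insert (g p) R')).card ≤ A.card := by
    have h5 := Finset.card_insert_le p (insert (g p) R')
    have h6 := Finset.card_insert_le (g p) R'
    omega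
  have hct : A.card ≤ ((R'.image g)ᶜ).card := by
    rw [Finset.card_compl, himg]
    omega
  obtain ⟨A', hs, ht, hA'⟩ := Finset.exists_subsuperset_card_eq hst hcs hct
  -- the permutation `τ`
  obtain ⟨τ, hτ⟩ : ∃ τ : Perm α, A'.image τ = A := by
    let e : {x // x ∈ A'} ≃ {x // x ∈ A} := Finset.equivOfCardEq hA'
    refine ⟨e.extendSubtype, ?_⟩
    apply Finset.eq_of_subset_of_card_le
    · intro x hx
      obtain ⟨z, hz, hz2⟩ := Finset.mem_image.1 hx
      rw [← hz2]
      exact e.extendSubtype_mem z hz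
    · rw [Finset.card_image_of_injective _ (Equiv.injective _), hA']
  refine ⟨τ * g * τ⁻¹, isConj_iff.2 ⟨τ, rfl⟩, ?_, ?_⟩
  · have hsub : (A' ∪ R'.image g).image τ ⊆ A ∪ A.image (τ * g * τ⁻¹ : Perm α) := by
      rw [Finset.image_union, hτ]
      apply Finset.union_subset_union (Finset.Subset.refl _)
      intro x hx
      obtain ⟨z, hz, hz2⟩ := Finset.mem_image.1 hx
      obtain ⟨w, hw, hw2⟩ := Finset.mem_image.1 hz
      refine Finset.mem_image.2 ⟨τ w, ?_, ?_⟩
      · rw [← hτ]
        exact Finset.mem_image.2 ⟨w, hs (Finset.mem_insert_of_mem (Finset.mem_insert_of_mem hw)), rfl⟩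
      · rw [Perm.mul_apply, Perm.mul_apply, inv_self85, hw2, hz2]
    refine le_trans ?_ (Finset.card_le_card hsub)
    rw [Finset.card_image_of_injective _ τ.injective, Finset.card_union_of_disjoint, hA', himg]
    rw [Finset.disjoint_left]
    intro x hx hx2
    exact (Finset.mem_compl.1 (ht hx)) hx2
  · refine ⟨τ (g p), ?_, ?_⟩
    · rw [← hτ]
      exact Finset.mem_image.2 ⟨g p, hs (Finset.mem_insert_of_mem (Finset.mem_insert_self _ _)), rfl⟩
    · refine Finset.mem_image.2 ⟨τ p, ?_, ?_⟩
      · rw [← hτ]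
        exact Finset.mem_image.2 ⟨p, hs (Finset.mem_insert_self _ _), rfl⟩
      · rw [Perm.mul_apply, Perm.mul_apply, inv_self85]

omit [Fintype α] in
/-- two further points of a set with three elements -/
lemma two_more {A : Finset α} (h3 : 3 ≤ A.card) (c : α) (hc : c ∈ A) :
    ∃ a ∈ A, ∃ a' ∈ A, a ≠ c ∧ a' ≠ c ∧ a ≠ a' := by
  have h1 : 1 < (A.erase c).card := by
    rw [Finset.card_erase_of_mem hc]
    omega
  obtain ⟨a, ha, a', ha', h⟩ := Finset.one_lt_card.1 h1
  rw [Finset.mem_erase] at ha ha'
  exact ⟨a, ha.2, a', ha'.2, ha.1, ha'.1, h⟩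

/-- `n + 4` conjugates of `g` generate a group which is full on a set with at least `k` points -/
def Reach (g : Perm α) (n k : ℕ) : Prop :=
  ∃ l : List (Perm α), l.length ≤ n + 4 ∧ (∀ h ∈ l, IsConj g h) ∧
    ∃ A : Finset α, k ≤ A.card ∧ 3 ≤ A.card ∧ Full (Subgroup.closure {h | h ∈ l}) (A : Set α)

omit [Fintype α] in
lemma Reach.mono {g : Perm α} {n k k' : ℕ} (h : Reach g n k) (hk : k' ≤ k) : Reach g n k' := by
  obtain ⟨l, h1, h2, A, h3, h4, h5⟩ := h
  exact ⟨l, h1, h2, A, hk.trans h3, h4, h5⟩

lemma reach_step {g : Perm α} {R : Finset α} (hR : ∀ x ∈ R, g x ∉ R) {q : ℕ} (hq : q ≤ R.card)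
    (h2 : 2 * q < Fintype.card α) {n k : ℕ} (h : Reach g n k) (hk : q + 2 ≤ k) :
    Reach g (n + 1) (min (Fintype.card α) (k + q)) := by
  classical
  obtain ⟨l, hl, hc, A, hkA, h3, hF⟩ := h
  have hAm : A.card ≤ Fintype.card α := Finset.card_le_univ A
  have hq' : min q (Fintype.card α - A.card) ≤ q := min_le_left _ _
  have hq'' : min q (Fintype.card α - A.card) ≤ Fintype.card α - A.card := min_le_right _ _
  obtain ⟨y, hy, hcard, c, hcA, hcB⟩ := step g hR (q := min q (Fintype.card α - A.card)) (by omega)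
    (by omega) (A := A) (by omega) (by omega)
  refine ⟨y :: l, by rw [List.length_cons]; omega, ?_, A ∪ A.image y, ?_, ?_, ?_⟩
  · intro h hh
    rcases List.mem_cons.1 hh with rfl | hh
    · exact hy
    · exact hc h hh
  · rcases le_total q (Fintype.card α - A.card) with h5 | h5
    · rw [min_eq_left h5] at hcard
      exact le_trans (min_le_right _ _) (by omega)
    · rw [min_eq_right h5] at hcard
      exact le_trans (min_le_left _ _) (by omega)
  · exact h3.trans (Finset.card_le_card Finset.subset_union_left)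
  · set T := Subgroup.closure {h | h ∈ y :: l} with hT
    have hle : Subgroup.closure {h | h ∈ l} ≤ T :=
      Subgroup.closure_mono (fun h hh => List.mem_cons_of_mem _ hh)
    have hyT : y ∈ T := Subgroup.subset_closure (List.mem_cons_self)
    have hF1 : Full T (A : Set α) := hF.mono hle
    have hF2 : Full T (y '' (A : Set α)) := full_image hF1 hyT
    obtain ⟨a, ha, a', ha', h6, h7, h8⟩ := two_more h3 c hcA
    have h3' : 3 ≤ (A.image y).card := by
      rw [Finset.card_image_of_injective _ y.injective]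
      exact h3
    obtain ⟨b, hb, b', hb', h9, h10, h11⟩ := two_more h3' c hcB
    have hcoe : ((A ∪ A.image y : Finset α) : Set α) = (A : Set α) ∪ y '' (A : Set α) := by
      rw [Finset.coe_union, Finset.coe_image]
    rw [hcoe]
    have hB : ∀ z, z ∈ A.image y → z ∈ y '' (A : Set α) := by
      intro z hz
      rw [← Finset.coe_image]
      exact hz
    exact full_union3 hF1 hF2 (c := c) (a := a) (a' := a') (b := b) (b' := b') hcA (hB c hcB) ha ha'
      (hB b hb) (hB b' hb') h6 h7 h8 h9 h10 h11

/-- first phase -/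
lemma reach_one {g : Perm α} {R : Finset α} (hR : ∀ x ∈ R, g x ∉ R) {r : ℕ} (hr : r ≤ R.card)
    (h2 : 2 * r < Fintype.card α) (h2' : r + 2 ≤ Fintype.card α) (h0 : Reach g 0 3) (n : ℕ) :
    Reach g n (2 + min (2 ^ n) r) := by
  induction n with
  | zero => exact h0.mono (by have := min_le_left (2 ^ 0) r; omega)
  | succ n ih =>
    have h4 : min (2 ^ n) r ≤ r := min_le_right _ _
    have h5 := reach_step hR (q := min (2 ^ n) r) (h4.trans hr) (by omega) ih (by omega)
    refine h5.mono ?_
    have h6 : min (2 ^ (n + 1)) r ≤ 2 ^ (n + 1) := min_le_left _ _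
    have h7 : min (2 ^ (n + 1)) r ≤ r := min_le_right _ _
    have h8 : 2 ^ (n + 1) = 2 * 2 ^ n := pow_succ' 2 n
    apply le_min
    · omega
    · rcases le_total (2 ^ n) r with h9 | h9
      · rw [min_eq_left h9]
        omega
      · rw [min_eq_right h9]
        omega

/-- second phase -/
lemma reach_two {g : Perm α} {R : Finset α} (hR : ∀ x ∈ R, g x ∉ R) {r : ℕ} (hr : r ≤ R.card)
    (h2 : 2 * r < Fintype.card α) (h2' : r + 2 ≤ Fintype.card α) {J : ℕ} (h0 : Reach g J (2 + r))
    (j : ℕ) : Reach g (J + j) (min (Fintype.card α) (2 + r + j * r)) := by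
  induction j with
  | zero => exact h0.mono (by rw [Nat.zero_mul]; exact min_le_right _ _)
  | succ j ih =>
    have h5 := reach_step hR (q := r) hr h2 ih (by
      apply le_min
      · exact h2'
      · have := Nat.zero_le (j * r)
        omega)
    refine h5.mono ?_
    apply le_min (min_le_left _ _)
    rcases le_total (Fintype.card α) (2 + r + j * r) with h9 | h9
    · rw [min_eq_left h9]
      exact (min_le_left _ _).trans (by omega)
    · rw [min_eq_right h9]
      refine (min_le_right _ _).trans (le_of_eq ?_)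
      ring

end Pool.Agent.D0H85.MX
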